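import Pool.Agent.Helper50.BP.St

set_option autoImplicit false

namespace Pool.Agent.Helper42.BP

open Pool.Agent.Helper50.BP

theorem hZB : StZB := by
  intro p n hp hn
  have h1 : ((p : ℝ) - 1) ^ n.totient < (Polynomial.cyclotomic n ℝ).eval (p : ℝ) :=
    Polynomial.sub_one_pow_totient_lt_cyclotomic_eval (by omega) (by
      have : (3 : ℝ) ≤ p := by exact_mod_cast hp
      linarith)
  have h2 : (2 : ℝ) ^ n.totient ≤ ((p : ℝ) - 1) ^ n.totient := by
    apply pow_le_pow_left₀ (by norm_num)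
    have : (3 : ℝ) ≤ p := by exact_mod_cast hp
    linarith
  have h3 : (((Polynomial.cyclotomic n ℤ).eval (p : ℤ) : ℤ) : ℝ) =
      (Polynomial.cyclotomic n ℝ).eval (p : ℝ) := by
    rw [← Polynomial.map_cyclotomic_int n ℝ]
    have := Polynomial.eval_intCast_map (Int.castRingHom ℝ) (Polynomial.cyclotomic n ℤ) (p : ℤ)
    simpa using this.symm
  have h4 : (2 : ℝ) ^ n.totient < (((Polynomial.cyclotomic n ℤ).eval (p : ℤ) : ℤ) : ℝ) := by
    rw [h3]
    exact lt_of_le_of_lt h2 h1
  exact_mod_cast h4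

end Pool.Agent.Helper42.BP
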